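import Pool.Agent.MP_3ce0a0_al.H52.XG3a

/-
The step G3: nontrivial majority signs contradict the Lefschetz formula.
-/

namespace Pool.Agent.MP_3ce0a0_al.H52.G3

open Equiv Module Finset Pool.Agent.MP_3ce0a0_al.H62.Inst Pool.Agent.MP_3ce0a0_al.H79.X

lemma exY0 {G κ : Type} [Group G] [DecidableEq κ] (c : κ → G)
    (hc : ∀ i j, i ≠ j → Commute (c i) (c j)) (h3 : ∀ i, c i ^ 3 = 1) (T : Finset κ) :
    ∃ y, y ^ 3 = 1 ∧ y ∈ Submonoid.closure (c '' T) ∧
      ∀ i ∈ T, ∃ y' ∈ Submonoid.closure (c '' (T.erase i)), y = c i * y' := by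
  induction T using Finset.induction_on with
  | empty => exact ⟨1, one_pow _, one_mem _, by simp⟩
  | insert k T hk ih =>
    obtain ⟨y, e, m, p⟩ := ih
    have cm : Commute (c k) y := by
      refine Submonoid.closure_induction (motive := fun x _ => Commute (c k) x) ?_
        (Commute.one_right _) (fun _ _ _ _ h h' => h.mul_right h') m
      rintro _ ⟨j, hj, rfl⟩
      exact hc k j fun e => hk (e ▸ hj)
    refine ⟨c k * y, by rw [cm.mul_pow, h3, e, one_mul], mul_mem
      (Submonoid.subset_closure ⟨k, by simp, rfl⟩)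
      (Submonoid.closure_mono (Set.image_mono (by simp)) m), fun i hi => ?_⟩
    rcases Finset.mem_insert.1 hi with rfl | hi
    · exact ⟨y, by rwa [Finset.erase_insert hk], rfl⟩
    · obtain ⟨y', m', rfl⟩ := p i hi
      have hik : k ≠ i := fun e => hk (e ▸ hi)
      refine ⟨c k * y', mul_mem (Submonoid.subset_closure ⟨k, by simp [hik], rfl⟩)
        (Submonoid.closure_mono (Set.image_mono ?_) m'), ?_⟩
      · exact Finset.coe_subset.2 (Finset.erase_subset_erase _ (Finset.subset_insert _ _))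
      · rw [← mul_assoc, (hc k i hik).eq, mul_assoc]

variable {ι : Type} [DecidableEq ι]

/-- products of elements of order three supported off `X`. -/
def Gen (X : Finset ι) : Submonoid (A ι) :=
  Submonoid.closure {x | ∃ a b, a ≠ b ∧ a ∉ X ∧ b ∉ X ∧ x = cc a b}

lemma Gen.ind {X : Finset ι} {y : A ι} (hy : y ∈ Gen X) (P : A ι → Prop) (h1 : P 1)
    (hm : ∀ x z, P x → P z → P (x * z)) (hb : ∀ a b, a ≠ b → a ∉ X → b ∉ X → P (cc a b)) :
    P y := by
  refine Submonoid.closure_induction (motive := fun x _ => P x) ?_ h1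
    (fun _ _ _ _ h h' => hm _ _ h h') hy
  rintro _ ⟨a, b, h, ha, hb', rfl⟩
  exact hb a b h ha hb'

/-- a product over a pairing of the letters off `X`. -/
def Yp (X : Finset ι) (y : A ι) : Prop := y ^ 3 = 1 ∧ y ∈ Gen X ∧ ∀ e, e ∉ X →
  ∃ a b y', a ≠ b ∧ a ∉ X ∧ b ∉ X ∧ (e = a ∨ e = b) ∧ y' ∈ Gen (insert a (insert b X)) ∧
    y = cc a b * y'

lemma exY [Fintype ι] (h0 : 0 < Fintype.card ι) (he : Even (Fintype.card ι)) :
    ∃ (c d : ι) (y : A ι), c ≠ d ∧ Yp {c, d} y := by
  obtain ⟨h, hh⟩ := he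
  let E : Fin h × Bool ≃ ι := Fintype.equivOfCardEq (by simp [hh]; omega)
  let k : Fin h := ⟨0, by omega⟩
  have ne : ∀ i, E (i, false) ≠ E (i, true) := fun i => by simp
  obtain ⟨y, e, m, p⟩ := exY0 (fun i => cc (E (i, false)) (E (i, true)))
    (fun i j hij => commute_On (S := {E (i, false), E (i, true)}) (T := {E (j, false), E (j, true)})
      (by simp [hij, hij.symm]) (cc_mem_On (by simp) (by simp)) (cc_mem_On (by simp) (by simp)))
    (fun i => cc_cube (ne i)) (univ.erase k)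
  refine ⟨E (k, false), E (k, true), y, ne k, e, Submonoid.closure_mono ?_ m, fun x hx => ?_⟩
  · rintro _ ⟨i, hi, rfl⟩
    have : i ≠ k := by simpa using hi
    exact ⟨_, _, ne i, by simp [this], by simp [this], rfl⟩
  · obtain ⟨⟨i, β⟩, rfl⟩ := E.surjective x
    have hi : i ≠ k := by
      rintro rfl
      cases β <;> simp at hx
    obtain ⟨y', m', e'⟩ := p i (by simpa using hi)
    refine ⟨E (i, false), E (i, true), y', ne i, by simp [hi], by simp [hi], by cases β <;> simp,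
      Submonoid.closure_mono ?_ m', e'⟩
    rintro _ ⟨j, hj, rfl⟩
    have : j ≠ k ∧ j ≠ i := by simpa using hj
    exact ⟨_, _, ne j, by simp [this.1, this.2], by simp [this.1, this.2], rfl⟩

lemma on_ep {a b f : ι} {α : A ι} (h : α ∈ On ({a, b} : Set ι)) (ha : f ≠ a) (hb : f ≠ b) :
    Commute α (ep f) :=
  commute_On (T := {f}) (by simp [ha, hb]) h (ep_mem_On rfl)

lemma gen_ep {X : Finset ι} {y : A ι} (hy : y ∈ Gen X) {f : ι} (hf : f ∈ X) : Commute y (ep f) :=
  Gen.ind hy (fun y => Commute y (ep f)) (Commute.one_left _) (fun _ _ h k => h.mul_left k)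
    fun a b _ ha hb => on_ep (a := a) (b := b) (cc_mem_On (by simp) (by simp))
      (fun e => ha (e ▸ hf)) fun e => hb (e ▸ hf)

variable [Fintype ι] {H : Type} [AddCommGroup H] [Module ℂ H] {r : Rep ι H} {D : ι → End ℂ H}

lemma cc_D (hD : DD r D) (h4 : D4 r D) {a b : ι} (h : a ≠ b) :
    r (cc a b) * D a = D a * D b * r (cc a b) ∧ r (cc a b) * D b = D a * r (cc a b) ∧
      ∀ f, f ≠ a → f ≠ b → Commute (r (cc a b)) (D f) := by
  obtain ⟨-, -, -, -, p, q, -⟩ := hD
  have t : ∀ f, r (ta a b) * D f = D (swap a b f) * r (ta a b) := p _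
  have c1 : ∀ f, f ≠ b → r (rh b a) * D f = D f * r (rh b a) := fun f hf =>
    ((h4.2.1 b f a h.symm hf.symm).1).eq.symm
  have c2 := (h4.2.2 b a h.symm).1
  have c3 : ∀ f, r (ep a) * D f = D f * r (ep a) := fun f => (q a f).eq.symm
  simp only [cc, map_mul]
  refine ⟨?_, ?_, fun f ha hb => ?_⟩
  · rw [mul_assoc, t, swap_apply_left, ← mul_assoc, mul_assoc (r _), c2, (h4.1 b a).eq,
      ← mul_assoc, ← mul_assoc, c3, mul_assoc (D a), c3]
    simp only [mul_assoc]
  · rw [mul_assoc, t, swap_apply_right, ← mul_assoc, mul_assoc (r _), c1 a h, ← mul_assoc, c3]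
    simp only [mul_assoc]
  · change _ * _ = _ * _
    rw [mul_assoc, t, swap_apply_of_ne_of_ne ha hb, ← mul_assoc, mul_assoc (r _), c1 f hb,
      ← mul_assoc, c3]
    simp only [mul_assoc]

lemma gen_D (hD : DD r D) (h4 : D4 r D) {X : Finset ι} {y : A ι} (hy : y ∈ Gen X) {f : ι}
    (hf : f ∈ X) : Commute (r y) (D f) :=
  Gen.ind hy (fun y => Commute (r y) (D f)) (by rw [map_one]; exact Commute.one_left _)
    (fun _ _ h k => by rw [map_mul]; exact h.mul_left k)
    fun _ _ h ha hb => (cc_D hD h4 h).2.2 f (fun e => ha (e ▸ hf)) fun e => hb (e ▸ hf)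

lemma Yp.rot (hD : DD r D) (h4 : D4 r D) {X : Finset ι} {y : A ι} (hy : Yp X y) {u : End ℂ H}
    (hu : ∀ f, Commute u (D f)) : Rot D Xᶜ (r y * u) := by
  intro e he
  obtain ⟨a, b, y', h, ha, hb, hab, m, rfl⟩ := hy.2.2 e (Finset.mem_compl.1 he)
  obtain ⟨e1, e2, -⟩ := cc_D hD h4 h
  refine ⟨a, Finset.mem_compl.2 ha, b, Finset.mem_compl.2 hb, hab, ?_, ?_⟩
  · rw [map_mul, mul_assoc, (hu a).eq, ← mul_assoc, mul_assoc (r _),
      (gen_D hD h4 m (by simp)).eq, ← mul_assoc, e1]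
    simp only [mul_assoc]
  · rw [map_mul, mul_assoc, (hu b).eq, ← mul_assoc, mul_assoc (r _),
      (gen_D hD h4 m (by simp)).eq, ← mul_assoc, e2]
    simp only [mul_assoc]

lemma keep_ep (hD : DD r D) (a : ι) (S I : Finset ι) : Keeps (r (ep a)) (JE D S I) :=
  keeps_JE _ fun f _ => (hD.2.2.2.2.2.1 a f).symm

lemma keep_pm (hD : DD r D) {σ : Perm ι} {I : Finset ι} (h : ∀ f, σ f ∈ I ↔ f ∈ I) :
    Keeps (r (pm σ)) (JE D univ I) := by
  intro v hv
  refine mem_JE.2 fun f _ => ?_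
  obtain ⟨f, rfl⟩ := σ.surjective f
  have := LinearMap.congr_fun (hD.2.2.2.2.1 σ f) v
  rw [End.mul_apply, End.mul_apply, mem_JE.1 hv f (mem_univ _)] at this
  rw [← this]
  by_cases k : f ∈ I <;> simp [k, h]

lemma rh_D (h4 : D4 r D) {a b : ι} (h : a ≠ b) (v : H) :
    (∀ f, f ≠ a → D f (r (rh a b) v) = r (rh a b) (D f v)) ∧
      D a (r (rh a b) (D b v)) = r (rh a b) (D a v) := by
  have c1 : ∀ f, f ≠ a → D f (r (rh a b) v) = r (rh a b) (D f v) := fun f hf =>
    LinearMap.congr_fun (h4.2.1 a f b h hf.symm).1.eq v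
  refine ⟨c1, ?_⟩
  rw [← c1 b h.symm]
  exact (LinearMap.congr_fun (h4.2.2 a b h).1 v).symm

lemma keep_rh (h4 : D4 r D) {a b : ι} (h : a ≠ b) {I : Finset ι} (hb : b ∉ I) :
    Keeps (r (rh a b)) (JE D univ I) := by
  intro v hv
  refine mem_JE.2 fun f _ => ?_
  obtain ⟨c1, c2⟩ := rh_D h4 h v
  by_cases k : f = a
  · subst k
    rw [mem_JE.1 hv b (mem_univ _), if_neg hb, mem_JE.1 hv f (mem_univ _)] at c2
    rw [c2]
    split_ifs <;> simp
  · rw [c1 f k, mem_JE.1 hv f (mem_univ _)]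
    split_ifs <;> simp

lemma keep_ta (hD : DD r D) {a b : ι} {I : Finset ι} (ha : a ∉ I) (hb : b ∉ I) :
    Keeps (r (ta a b)) (JE D univ I) :=
  keep_pm hD fun f => by
    rw [swap_apply_def]
    split_ifs with h1 h2
    · simp [h1, ha, hb]
    · simp [h2, ha, hb]
    · rfl

lemma keep_cc (hD : DD r D) (h4 : D4 r D) {a b : ι} (h : a ≠ b) {I : Finset ι} (ha : a ∉ I)
    (hb : b ∉ I) : Keeps (r (cc a b)) (JE D univ I) := by
  rw [cc, map_mul, map_mul]
  exact ((keep_ep hD a _ _).mul (keep_rh h4 h.symm ha)).mul (keep_ta hD ha hb)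

variable [FiniteDimensional ℂ H]

lemma dim_cd (h4 : D4 r D) (hD : DD r D) {c d : ι} (h : c ≠ d) :
    finrank ℂ (JE D univ {c, d}) ≤ finrank ℂ (JE D univ {c}) := by
  rw [← finrank_map_unit (u := r (rh d c)) (u' := r (rh d c)⁻¹)
    (by rw [← map_mul, inv_mul_cancel, map_one])]
  refine Submodule.finrank_mono ?_
  rintro _ ⟨v, hv, rfl⟩
  refine mem_JE.2 fun f _ => ?_
  obtain ⟨c1, c2⟩ := rh_D h4 h.symm v
  by_cases k : f = d
  · subst k
    rw [mem_JE.1 hv c (mem_univ _), mem_JE.1 hv f (mem_univ _)] at c2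
    simpa [h.symm] using c2
  · rw [c1 f k, mem_JE.1 hv f (mem_univ _)]
    by_cases l : f = c <;> simp [k, l]

lemma hc (hQ : Quad r) (hD : DD r D) (h4 : D4 r D) (hG : GS r D) {c d : ι} (hcd : c ≠ d)
    {y : A ι} (hy : Yp {c, d} y) :
    finrank ℂ (JE D univ {c} ⊓ End.eigenspace (r (ep c * ep d)) 1 : Submodule ℂ H) = 1 ∧
    finrank ℂ (JE D univ {c} ⊓ End.eigenspace (r (ep c * ep d)) (-1) : Submodule ℂ H) + 2 =
      Fintype.card ι ∧
    JE D univ {c} ⊓ (End.eigenspace (r (ep c * ep d)) (-1) ⊓ End.eigenspace (r y) 1) = ⊥ := by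
  obtain ⟨hd, s, hs', g1, g2, g3, -⟩ := hG.2 c
  have hs : s * s = 1 := by rcases hs' with rfl | rfl <;> simp
  set Q := JE D univ {c} with hQd
  have h1 : ∀ a, r (ep a) * r (ep a) = 1 := fun a => by rw [← map_mul, ep_sq, map_one]
  have h2 : ∀ a b, Commute (r (ep a)) (r (ep b)) := fun a b => (ep_comm a b).map r
  have h3 : ∀ a, Keeps (r (ep a)) Q := fun a => keep_ep hD a _ _
  have h1' : ∀ a v, r (ep a) (r (ep a) v) = v := fun a v => LinearMap.congr_fun (h1 a) v
  have hd' : finrank ℂ Q = (univ.erase c).card := by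
    rw [hd, Finset.card_erase_of_mem (mem_univ _), Finset.card_univ]
  have hl : ∀ a ∈ univ.erase c,
      finrank ℂ (Q ⊓ End.eigenspace (r (ep a)) (-s) : Submodule ℂ H) = 1 :=
    fun a ha => g2 a (Finset.ne_of_mem_erase ha)
  have hz : ∀ a ∈ univ.erase c, ∀ b ∈ univ.erase c, a ≠ b →
      Q ⊓ End.eigenspace (r (ep a)) (-s) ⊓ End.eigenspace (r (ep b)) (-s) = ⊥ :=
    fun a ha b hb => g3 a b (Finset.ne_of_mem_erase ha) (Finset.ne_of_mem_erase hb)
  have tq : ∀ v ∈ Q, r (ep c * ep d) v = -s • r (ep d) v := fun v hv => by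
    rw [map_mul, End.mul_apply, g1 _ (h3 d v hv)]
  have a1 : Q ⊓ End.eigenspace (r (ep c * ep d)) 1 = Q ⊓ End.eigenspace (r (ep d)) (-s) := by
    ext v
    refine and_congr_right fun hv => ?_
    rw [SetLike.mem_coe, SetLike.mem_coe, End.mem_eigenspace_iff, End.mem_eigenspace_iff, tq v hv,
      one_smul]
    constructor
    · intro e
      nth_rewrite 2 [← e]
      rw [smul_smul, neg_mul_neg, hs, one_smul]
    · intro e
      rw [e, smul_smul, neg_mul_neg, hs, one_smul]
  have a2 : finrank ℂ (Q ⊓ End.eigenspace (r (ep c * ep d)) 1 : Submodule ℂ H) = 1 := by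
    rw [a1]
    exact g2 d hcd.symm
  have kt : Keeps (r (ep c * ep d)) Q := by
    rw [map_mul]
    exact (h3 c).mul (h3 d)
  have a3 := (trOn_invol kt fun v hv => by
    rw [tq _ (kt v hv), tq v hv, map_smul, h1', smul_smul, neg_mul_neg, hs, one_smul]).2
  have n2 : 2 ≤ Fintype.card ι := Fintype.one_lt_card_iff.2 ⟨c, d, hcd⟩
  refine ⟨a2, by omega, ?_⟩
  -- elements of order three are trivial on the other lines
  have L1 : ∀ a b f, a ≠ b → a ≠ c → b ≠ c → f ≠ c → f ≠ a → f ≠ b →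
      ∀ v ∈ Q ⊓ End.eigenspace (r (ep f)) (-s), r (cc a b) v = v := fun a b f h ha hb hf k l =>
    line_triv (τ := r (ta a b)) (g2 f hf).le
      ((keep_cc hD h4 h (by simpa using ha) (by simpa using hb)).inf
        (keeps_eig ((on_ep (cc_mem_On (by simp) (by simp)) k l).map r) _))
      ((keep_ta hD (by simpa using ha) (by simpa using hb)).inf
        (keeps_eig ((on_ep (ta_mem_On (by simp) (by simp)) k l).map r) _))
      (by rw [← map_pow, cc_cube h, map_one]) (by rw [← map_mul, ta_sq, map_one])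
      (by rw [← map_mul, ← map_mul, ta_cc h, map_mul])
  -- no fixed vector on the plane of a pair
  have L2 : ∀ a b, a ≠ b → a ≠ c → b ≠ c →
      Keeps (r (cc a b))
        (Q ⊓ End.eigenspace (r (ep a)) (-s) ⊔ Q ⊓ End.eigenspace (r (ep b)) (-s)) ∧
      ∀ w ∈ Q ⊓ End.eigenspace (r (ep a)) (-s) ⊔ Q ⊓ End.eigenspace (r (ep b)) (-s),
        r (cc a b) w = w → w = 0 := by
    intro a b h ha hb
    set W := Q ⊓ End.eigenspace (r (ep a)) (-s) ⊔ Q ⊓ End.eigenspace (r (ep b)) (-s) with hW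
    have WQ : W ≤ Q := sup_le inf_le_left inf_le_left
    have kW : ∀ α ∈ On ({a, b} : Set ι), Keeps (r α) Q → Keeps (r α) W := fun α hα k v hv => by
      refine dec_pair hs h1 h2 h3 hd' hl hz (by simpa using ha) (by simpa using hb) h
        (k v (WQ hv)) fun f hf k1 k2 => ?_
      have le : W ≤ End.eigenspace (r (ep f)) s :=
        sup_le (fun u hu => End.mem_eigenspace_iff.2 (dec_other hs h1 h2 h3
          (hz a (by simpa using ha) f hf k1.symm) hu)) fun u hu => End.mem_eigenspace_iff.2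
          (dec_other hs h1 h2 h3 (hz b (by simpa using hb) f hf k2.symm) hu)
      exact End.mem_eigenspace_iff.1 (keeps_eig ((on_ep hα k1 k2).map r) s v (le hv))
    have kc := kW _ (cc_mem_On (by simp) (by simp))
      (keep_cc hD h4 h (by simpa using ha) (by simpa using hb))
    have kτ := kW _ (ta_mem_On (a := a) (b := b) (by simp) (by simp))
      (keep_ta hD (by simpa using ha) (by simpa using hb))
    have kr := kW _ (rh_mem_On (a := a) (b := b) (by simp) (by simp))
      (keep_rh h4 h (by simpa using hb))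
    have ke := kW _ (ep_mem_On (a := a) (by simp)) (h3 a)
    have dW : finrank ℂ W ≤ 2 := by
      have := Submodule.finrank_add_le_finrank_add_finrank
        (Q ⊓ End.eigenspace (r (ep a)) (-s)) (Q ⊓ End.eigenspace (r (ep b)) (-s))
      rw [g2 a ha, g2 b hb] at this
      exact this
    have ee : ∀ v ∈ W, r (ep a * ep b) v = -v := by
      have le : W ≤ End.eigenspace (r (ep a * ep b)) (-1) := by
        refine sup_le (fun u hu => End.mem_eigenspace_iff.2 ?_)
          fun u hu => End.mem_eigenspace_iff.2 ?_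
        · rw [map_mul, End.mul_apply, dec_other hs h1 h2 h3 (g3 a b ha hb h) hu, map_smul,
            End.mem_eigenspace_iff.1 hu.2, smul_smul, mul_neg, hs]
        · rw [map_mul, End.mul_apply, End.mem_eigenspace_iff.1 hu.2, map_smul,
            dec_other hs h1 h2 h3 (g3 b a hb ha h.symm) hu, smul_smul, neg_mul, hs]
      intro v hv
      simpa using End.mem_eigenspace_iff.1 (le hv)
    refine ⟨kc, fun w hw e => by_contra fun h0 => h0 ?_⟩
    have t := plane_triv (τ := r (ta a b)) dW kc kτ (by rw [← map_pow, cc_cube h, map_one])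
      (by rw [← map_mul, ta_sq, map_one]) (by rw [← map_mul, ← map_mul, ta_cc h, map_mul]) hw h0 e
    have kS : Keeps (r (ep a * ta a b)) W := by
      rw [map_mul]
      exact ke.mul kτ
    have SS : ∀ v ∈ W, r (ep a * ta a b) (r (ep a * ta a b) v) = -v := fun v hv => by
      rw [← End.mul_apply, ← map_mul, epta_sq h, ee v hv]
    have rS : ∀ v ∈ W, r (rh a b) v = -r (ep a * ta a b) v := fun v hv => by
      have := t v hv
      rw [cc_eq h, map_mul, End.mul_apply] at this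
      nth_rewrite 2 [← this]
      rw [SS _ (kr v hv), neg_neg]
    have u := hQ a {b} (by simp) (by simpa using h) (FreeGroup.of b) (of_mem_FS (by simp))
    rw [← rh_eq h] at u
    refine (u.on W).eig hw (c := -1) ?_ (by norm_num)
    rw [pow_two, End.mul_apply, rS w hw, map_neg, rS _ (kS w hw), SS w hw]
    simp
  have y3 : r y ^ 3 = 1 := by rw [← map_pow, hy.1, map_one]
  have k : Q ≤ LinearMap.ker ((r y * r y + r y + 1) * (1 - r (ep c * ep d))) := by
    refine (dec_span hs h1 h2 h3 hd' hl hz).trans (iSup_le fun e u hu => ?_)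
    have ec := Finset.ne_of_mem_erase e.2
    rw [LinearMap.mem_ker, End.mul_apply, LinearMap.sub_apply, End.one_apply]
    by_cases ed : e.1 = d
    · rw [ed, ← a1] at hu
      rw [End.mem_eigenspace_iff.1 hu.2, one_smul, sub_self, map_zero]
    · rw [tq u hu.1, dec_other hs h1 h2 h3 (g3 e d ec hcd.symm ed) hu, smul_smul, neg_mul, hs,
        neg_smul, one_smul, sub_neg_eq_add, map_add]
      suffices (r y * r y + r y + 1) u = 0 by rw [this, add_zero]
      obtain ⟨a, b, y', h, ha, hb, hab, m, ey⟩ := hy.2.2 e (by simp [ec, ed])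
      have ha' : a ≠ c := fun k => ha (by simp [k])
      have hb' : b ≠ c := fun k => hb (by simp [k])
      obtain ⟨kc, nf⟩ := L2 a b h ha' hb'
      set W := Q ⊓ End.eigenspace (r (ep a)) (-s) ⊔ Q ⊓ End.eigenspace (r (ep b)) (-s) with hW
      have uW : u ∈ W := by
        rcases hab with k | k
        · exact Submodule.mem_sup_left (k ▸ hu)
        · exact Submodule.mem_sup_right (k ▸ hu)
      have tr : ∀ v ∈ W, r y' v = v := by
        refine Gen.ind m (fun z => ∀ v ∈ W, r z v = v) (by simp)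
          (fun x z p q v hv => by rw [map_mul, End.mul_apply, q v hv, p v hv])
          fun a' b' h' p q => ?_
        simp only [Finset.mem_insert, Finset.mem_singleton, not_or] at p q
        have le : W ≤ End.eigenspace (r (cc a' b')) 1 :=
          sup_le (fun u hu => End.mem_eigenspace_iff.2 (by
            rw [L1 a' b' a h' p.2.2.1 q.2.2.1 ha' (Ne.symm p.1) (Ne.symm q.1) u hu, one_smul]))
            fun u hu => End.mem_eigenspace_iff.2 (by
              rw [L1 a' b' b h' p.2.2.1 q.2.2.1 hb' (Ne.symm p.2.1) (Ne.symm q.2.1) u hu, one_smul])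
        intro v hv
        simpa using End.mem_eigenspace_iff.1 (le hv)
      have yc : ∀ v ∈ W, r y v = r (cc a b) v := fun v hv => by
        rw [ey, map_mul, End.mul_apply, tr v hv]
      have ky : Keeps (r y) W := fun v hv => by
        rw [yc v hv]
        exact kc v hv
      have mW : (r y * r y + r y + 1) u ∈ W :=
        add_mem (add_mem (ky _ (ky u uW)) (ky u uW)) uW
      refine nf _ mW ?_
      rw [← yc _ mW, ← End.mul_apply]
      congr 1
      rw [mul_add, mul_add, ← mul_assoc, ← pow_three', y3, mul_one]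
      abel
  refine (Submodule.eq_bot_iff _).2 fun v hv => ?_
  have := k hv.1
  have e1 := End.mem_eigenspace_iff.1 hv.2.1
  have e2 := End.mem_eigenspace_iff.1 hv.2.2
  rw [one_smul] at e2
  rw [LinearMap.mem_ker, End.mul_apply, LinearMap.sub_apply, End.one_apply, e1] at this
  have e3 : (6 : ℂ) • v = 0 := by
    rw [← this]
    simp only [LinearMap.add_apply, End.mul_apply, End.one_apply, neg_smul, one_smul,
      sub_neg_eq_add, map_add, e2]
    module
  exact (smul_eq_zero.1 e3).resolve_left (by norm_num)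

omit [FiniteDimensional ℂ H] [Fintype ι] [DecidableEq ι] in
lemma eig_split {t : End ℂ H} {Z : Submodule ℂ H} (ht : t * t = 1) (k : Keeps t Z) :
    Z = Z ⊓ End.eigenspace t 1 ⊔ Z ⊓ End.eigenspace t (-1) ∧
      Disjoint (Z ⊓ End.eigenspace t 1) (Z ⊓ End.eigenspace t (-1)) := by
  have e : ∀ v, t (t v) = v := fun v => LinearMap.congr_fun ht v
  refine ⟨le_antisymm (fun v hv => ?_) (sup_le inf_le_left inf_le_left),
    Submodule.disjoint_def.2 fun v h1 h2 => ?_⟩
  · have : (2 : ℂ) • v = (v + t v) + (v - t v) := by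
      rw [two_smul]
      abel
    refine (Submodule.smul_mem_iff _ (two_ne_zero (α := ℂ))).1 ?_
    rw [this]
    exact Submodule.add_mem_sup
      ⟨add_mem hv (k v hv), End.mem_eigenspace_iff.2 (by simp [e, add_comm])⟩
      ⟨sub_mem hv (k v hv), End.mem_eigenspace_iff.2 (by simp [e])⟩
  · have e1 := End.mem_eigenspace_iff.1 h1.2
    have e2 := End.mem_eigenspace_iff.1 h2.2
    have : (2 : ℂ) • v = 0 := by
      rw [two_smul]
      rw [e1, one_smul, neg_smul, one_smul] at e2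
      nth_rewrite 1 [e2]
      exact neg_add_cancel _
    exact (smul_eq_zero.1 this).resolve_left two_ne_zero

lemma main (hS : SSmallR) (hn : 12 ≤ Fintype.card ι) (hQ : Quad r) (hD : DD r D) (h4 : D4 r D)
    (hG : GS r D) {c d : ι} (hcd : c ≠ d) {y : A ι} (hy : Yp {c, d} y) (Φ : Submodule ℂ H)
    (k1 : ∀ e ∈ ({c, d} : Finset ι)ᶜ, Keeps (D e) Φ) (k2 : Keeps (r y) Φ)
    (k3 : Φ ≤ End.eigenspace (r (ep c * ep d)) 1) :
    (trOn (r y) Φ).re + 1 < (LinearMap.trace ℂ H (r y * r (ep c * ep d))).re := by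
  obtain ⟨c1, c2, c3⟩ := hc hQ hD h4 hG hcd hy
  obtain ⟨d1, d2, d3⟩ := hc hQ hD h4 hG hcd.symm (y := y) (by rwa [Finset.pair_comm])
  rw [(ep_comm d c).eq] at d1 d2 d3
  have dcd := dim_cd h4 hD hcd
  obtain ⟨dc, s, -, -, -, -, g4⟩ := hG.2 c
  have g4' := g4 d hcd.symm
  have sm := hS ι H r (JE D univ ∅) (by omega) hG.1 (fun a => keep_ep hD a _ _)
    (fun σ => keep_pm hD (by simp)) fun a b h => keep_rh h4 h (by simp)
  have g0 : ∀ v ∈ JE D univ ∅, r (ep c * ep d) v = v := fun v hv => (sm c d hcd v hv).1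
  have y0 : ∀ v ∈ JE D univ ∅, r y v = v :=
    Gen.ind hy.2.1 (fun z => ∀ v ∈ JE D univ ∅, r z v = v) (by simp)
      (fun x z p q v hv => by rw [map_mul, End.mul_apply, q v hv, p v hv])
      fun a b h _ _ v hv => (sm a b h v hv).2
  have yt : Commute (r y) (r (ep c * ep d)) :=
    ((gen_ep hy.2.1 (by simp)).mul_right (gen_ep hy.2.1 (by simp))).map r
  have tD : ∀ f, Commute (r (ep c * ep d)) (D f) := fun f => by
    rw [map_mul]
    exact (hD.2.2.2.2.2.1 c f).symm.mul_left (hD.2.2.2.2.2.1 d f).symm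
  have tt : r (ep c * ep d) * r (ep c * ep d) = 1 := by
    rw [← map_mul, mul_assoc, ← mul_assoc (ep d), (ep_comm d c).eq, mul_assoc, ep_sq, mul_one,
      ep_sq, map_one]
  have y3 : ∀ v, (r y ^ 3) v = v := fun v => by rw [← map_pow, hy.1, map_one, End.one_apply]
  set t := r (ep c * ep d) with ht
  have rot1 : Rot D {c, d}ᶜ (r y) := by
    simpa using hy.rot hD h4 (u := 1) fun f => Commute.one_left _
  have rot2 : Rot D {c, d}ᶜ (r y * t) := hy.rot hD h4 tD
  set Z := JE D {c, d}ᶜ ∅ with hZ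
  have yZ : Keeps (r y) Z := rot1.keeps hD.1
  have tZ : Keeps t Z := keeps_JE _ fun f _ => tD f
  have kp : ∀ z : ℂ, Keeps (r y) (Z ⊓ End.eigenspace t z) := fun z => yZ.inf (keeps_eig yt z)
  have kp' : ∀ z : ℂ, Keeps (r y * t) (Z ⊓ End.eigenspace t z) := fun z =>
    (kp z).mul (tZ.inf (keeps_eig (Commute.refl t) z))
  have T1 : trOn (r y) Φ = trOn (r y) (Φ ⊓ Z) := rot1.trOn hD.1 h4.1 k1 k2
  have T2 : LinearMap.trace ℂ H (r y * t) =
      trOn (r y) (Z ⊓ End.eigenspace t 1) - trOn (r y) (Z ⊓ End.eigenspace t (-1)) := by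
    rw [← trOn_top, rot2.trOn hD.1 h4.1 (fun _ _ _ _ => Submodule.mem_top)
      fun _ _ => Submodule.mem_top, top_inf_eq, ← hZ]
    obtain ⟨e1, e2⟩ := eig_split tt tZ
    nth_rewrite 1 [e1]
    rw [trOn_sup (kp' 1) (kp' (-1)) e2, trOn_congr (g := r y) (Q := Z ⊓ End.eigenspace t 1)
      fun v hv => by rw [End.mul_apply, End.mem_eigenspace_iff.1 hv.2, one_smul],
      trOn_congr (f := r y * t) (g := (-1 : ℂ) • r y) (Q := Z ⊓ End.eigenspace t (-1))
      fun v hv => by rw [End.mul_apply, End.mem_eigenspace_iff.1 hv.2, map_smul,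
        LinearMap.smul_apply], trOn_smul (kp _)]
    ring
  have R1 := re_trOn_cube (k2.inf yZ) fun v _ => y3 v
  have R2 := re_trOn_cube (kp 1) fun v _ => y3 v
  have R3 := re_trOn_cube (kp (-1)) fun v _ => y3 v
  have yD : ∀ a ∈ ({c, d} : Finset ι), Commute (D a) (r y) := fun a ha =>
    (gen_D hD h4 hy.2.1 ha).symm
  have S1 := split4 hD.1 h4.1 hcd (Q := End.eigenspace t 1) fun a _ => keeps_eig (tD a).symm _
  have S2 := split4 hD.1 h4.1 hcd (Q := End.eigenspace t (-1)) fun a _ => keeps_eig (tD a).symm _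
  have S3 := split4 hD.1 h4.1 hcd (Q := End.eigenspace t (-1) ⊓ End.eigenspace (r y) 1)
    fun a ha => (keeps_eig (tD a).symm _).inf (keeps_eig (yD a ha) _)
  have zero : ∀ P : Submodule ℂ H, (∀ v ∈ P, t v = v) →
      P ⊓ (End.eigenspace t (-1) ⊓ End.eigenspace (r y) 1) = ⊥ := fun P hP =>
    (Submodule.eq_bot_iff _).2 fun v hv => Submodule.disjoint_def.1
      (eig_split (Z := ⊤) tt fun _ _ => Submodule.mem_top).2 v
      ⟨Submodule.mem_top, End.mem_eigenspace_iff.2 (by rw [hP v hv.1, one_smul])⟩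
      ⟨Submodule.mem_top, hv.2.1⟩
  rw [c3, d3, zero _ g0, zero _ g4', finrank_bot, ← inf_assoc] at S3
  rw [c1, d1] at S1
  have B1 : finrank ℂ (JE D univ ∅ ⊓ End.eigenspace t 1 : Submodule ℂ H) ≤
      finrank ℂ (Z ⊓ End.eigenspace t 1 ⊓ End.eigenspace (r y) 1 : Submodule ℂ H) :=
    Submodule.finrank_mono fun v hv => ⟨⟨mem_JE.2 fun a _ => mem_JE.1 hv.1 a (mem_univ _), hv.2⟩,
      End.mem_eigenspace_iff.2 (by rw [y0 v hv.1, one_smul])⟩
  have B2 : finrank ℂ (JE D univ {c, d} ⊓ End.eigenspace t 1 : Submodule ℂ H) ≤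
      finrank ℂ (JE D univ {c, d}) := Submodule.finrank_mono inf_le_left
  have B3 : finrank ℂ (Φ ⊓ Z ⊓ End.eigenspace (r y) 1 : Submodule ℂ H) ≤
      finrank ℂ (Φ ⊓ Z : Submodule ℂ H) := Submodule.finrank_mono inf_le_left
  have B4 : finrank ℂ (Φ ⊓ Z ⊓ End.eigenspace (r y) 1 : Submodule ℂ H) ≤
      finrank ℂ (Z ⊓ End.eigenspace t 1 ⊓ End.eigenspace (r y) 1 : Submodule ℂ H) :=
    Submodule.finrank_mono fun v hv => ⟨⟨hv.1.2, k3 hv.1.1⟩, hv.2⟩
  rw [← hZ] at S1 S2 S3
  have N1 : finrank ℂ (Z ⊓ End.eigenspace t 1 : Submodule ℂ H) + 7 ≤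
      finrank ℂ (Z ⊓ End.eigenspace t 1 ⊓ End.eigenspace (r y) 1 : Submodule ℂ H) +
        finrank ℂ (Z ⊓ End.eigenspace t (-1) : Submodule ℂ H) := by omega
  rw [S3] at R3
  rw [T1, T2, Complex.sub_re]
  have N1' := (Nat.cast_le (α := ℝ)).2 N1
  have B3' := (Nat.cast_le (α := ℝ)).2 B3
  have B4' := (Nat.cast_le (α := ℝ)).2 B4
  push_cast at N1' R3
  linarith

theorem sg3 (h1 : SGeoL) (h2 : SSmallR) : SG3 := by
  intro ι O H _ _ _ _ _ _ π G ψ D hn he hQ hD h4 hG
  obtain ⟨c, d, y, hcd, hy⟩ := exY (ι := ι) (by omega) he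
  obtain ⟨L1, L2⟩ := h1 H O π G
  have t2 : ψ (ep c * ep d) ^ 2 = 1 := by
    rw [← map_pow, (ep_comm c d).mul_pow, pow_two, pow_two, ep_sq, ep_sq, mul_one, map_one]
  have yt : Commute y (ep c * ep d) :=
    (gen_ep hy.2.1 (by simp)).mul_right (gen_ep hy.2.1 (by simp))
  have kΦ : ∀ z : A ι, Commute z (ep c * ep d) →
      Keeps ((π.comp ψ) z) (G.Φt (ψ (ep c * ep d))) := fun z hz => by
    have : G.Φt (ψ (ep c * ep d)) ≤ (G.Φt (ψ (ep c * ep d))).comap (π (ψ z)) :=
      iSup₂_le fun ω hω v hv => by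
        refine le_iSup₂_of_le (f := fun ω (_ : G.ov ω = ψ (ep c * ep d)) => G.Φ ω)
          (G.act (ψ z) ω) ?_ le_rfl (G.Φ_act _ ω v hv)
        rw [G.ov_act, hω, (hz.map ψ).eq, mul_inv_cancel_right]
    exact this
  have M := main h2 hn hQ hD h4 hG hcd hy (G.Φt (ψ (ep c * ep d))) (fun e he => ?_) (kΦ y yt)
    (iSup₂_le fun ω hω v hv => End.mem_eigenspace_iff.2 (by
      rw [one_smul]
      exact ((L1 _ (isOfFinOrder_iff_pow_eq_one.2 ⟨2, two_pos, t2⟩)).2.2 ω hω).2 v hv))
  · have L := congrArg Complex.re (L2 (ψ (ep c * ep d)) (ψ y) 2 3 two_pos (by norm_num)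
      (by norm_num) t2 (by rw [← map_pow, hy.1, map_one]) (yt.symm.map ψ))
    rw [map_mul π, Complex.sub_re, Complex.sub_re, Complex.natCast_re, Complex.one_re] at L
    have := Nat.cast_nonneg (α := ℝ) (G.fx (ψ (ep c * ep d)) (ψ y))
    change (trOn (π (ψ y)) _).re + 1 < (LinearMap.trace ℂ H (π (ψ y) * π (ψ _))).re at M
    linarith
  · have ec : c ≠ e := fun k => by simp [k] at he
    have ed : d ≠ e := fun k => by simp [k] at he
    obtain ⟨e₁, h₁, e₂, h₂, e₃, h₃, n₁, n₂, n₃⟩ := Finset.two_lt_card.1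
      (show 2 < (univ.erase e).card by
        rw [Finset.card_erase_of_mem (mem_univ _), Finset.card_univ]
        omega)
    have m₁ := Finset.ne_of_mem_erase h₁
    have m₂ := Finset.ne_of_mem_erase h₂
    have m₃ := Finset.ne_of_mem_erase h₃
    have kk' : ∀ f, f ≠ e → Keeps ((π.comp ψ) (kk f e)) (G.Φt (ψ (ep c * ep d))) := fun f hf =>
      kΦ _ ((ep_kk hf ec).mul_left (ep_kk hf ed)).symm
    refine Keeps.adjoin ?_ (hD.2.1 e e₁ e₂ e₃ (by simp [m₁.symm, m₂.symm, m₃.symm, n₁, n₂, n₃]))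
    rintro x (rfl | rfl | rfl)
    exacts [kk' _ m₁, kk' _ m₂, kk' _ m₃]

end Pool.Agent.MP_3ce0a0_al.H52.G3
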