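import Pool.Agent.MP_3ce0a0_al.H79.XS
import Pool.Agent.MP_3ce0a0_al.H79.XJ

/-
Linear algebra for the step G3.
-/

namespace Pool.Agent.MP_3ce0a0_al.H52.G3

open Equiv Module Finset Pool.Agent.MP_3ce0a0_al.H62.Inst Pool.Agent.MP_3ce0a0_al.H79.X

variable {H : Type} [AddCommGroup H] [Module ℂ H] [FiniteDimensional ℂ H]

lemma line_triv {c τ : End ℂ H} {Q : Submodule ℂ H} (hQ : finrank ℂ Q ≤ 1) (hc : Keeps c Q)
    (hτ : Keeps τ Q) (h3 : c ^ 3 = 1) (h2 : τ * τ = 1) (h : τ * c * τ = c * c) :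
    ∀ v ∈ Q, c v = v := by
  obtain ⟨u, hu⟩ := finrank_le_one_iff.1 hQ
  have key : c u = u := by
    obtain ⟨z, hz⟩ := hu ⟨c u, hc _ u.2⟩
    obtain ⟨m, hm⟩ := hu ⟨τ u, hτ _ u.2⟩
    have hz' : c u = z • (u : H) := (congrArg Subtype.val hz).symm
    have hm' : τ u = m • (u : H) := (congrArg Subtype.val hm).symm
    have e1 : τ (τ u) = u := by rw [← End.mul_apply, h2, End.one_apply]
    have e2 : τ (c (τ u)) = c (c u) := by
      rw [← End.mul_apply, ← End.mul_apply, h, End.mul_apply]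
    have e3 : c (c (c u)) = u := by
      have := LinearMap.congr_fun h3 (u : H)
      simpa [pow_succ] using this
    have e4 : τ (c (τ u)) = z • (u : H) := by
      rw [hm', map_smul, hz', smul_comm, map_smul, ← hm', e1]
    by_cases h0 : (u : H) = 0
    · rw [h0, map_zero]
    · have a1 : z * z = z := smul_left_injective ℂ h0 (by
        have : c (c u) = (z * z) • (u : H) := by rw [hz', map_smul, hz', smul_smul]
        simp only [← this, ← e2, e4])
      have a2 : z * z * z = 1 := smul_left_injective ℂ h0 (by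
        have : c (c (c u)) = (z * z * z) • (u : H) := by
          rw [hz', map_smul, hz', map_smul, map_smul, hz', smul_smul, smul_smul]
        simp only [← this, e3, one_smul])
      have : z = 1 := by rw [a1, a1] at a2; exact a2
      rw [hz', this, one_smul]
  intro v hv
  obtain ⟨k, hk⟩ := hu ⟨v, hv⟩
  have : v = k • (u : H) := (congrArg Subtype.val hk).symm
  rw [this, map_smul, key]

lemma plane_triv {c τ : End ℂ H} {Q : Submodule ℂ H} (hQ : finrank ℂ Q ≤ 2) (hc : Keeps c Q)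
    (hτ : Keeps τ Q) (h3 : c ^ 3 = 1) (h2 : τ * τ = 1) (h : τ * c * τ = c * c) {w : H}
    (hw : w ∈ Q) (h0 : w ≠ 0) (e : c w = w) : ∀ v ∈ Q, c v = v := by
  have r1 := LinearMap.finrank_range_add_finrank_ker ((c - 1).domRestrict Q)
  rw [LinearMap.range_domRestrict] at r1
  have r2 : 0 < finrank ℂ (LinearMap.ker ((c - 1).domRestrict Q)) := by
    rw [Nat.pos_iff_ne_zero, Ne, Submodule.finrank_eq_zero]
    intro hb
    have : (⟨w, hw⟩ : Q) ∈ LinearMap.ker ((c - 1).domRestrict Q) := by simp [e]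
    rw [hb, Submodule.mem_bot] at this
    exact h0 (congrArg Subtype.val this)
  have hτc : ∀ v, τ (c v) = c (c (τ v)) := fun v => by
    have := LinearMap.congr_fun h (τ v)
    have e1 : τ (τ v) = v := by rw [← End.mul_apply, h2, End.one_apply]
    simpa [e1] using this
  have t := line_triv (c := c) (τ := τ) (Q := Q.map (c - 1)) (by omega)
    (by
      rintro _ ⟨v, hv, rfl⟩
      exact ⟨c v, hc v hv, by simp⟩)
    (by
      rintro _ ⟨v, hv, rfl⟩
      refine ⟨c (τ v) + τ v, add_mem (hc _ (hτ v hv)) (hτ v hv), ?_⟩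
      simp only [LinearMap.sub_apply, End.one_apply, map_add, map_sub, hτc]
      abel) h3 h2 h
  refine UniOn.eq_of_pow (k := 3) ⟨2, fun v hv => ?_⟩ hc (by norm_num) fun v _ => by simp [h3]
  have := t _ ⟨v, hv, rfl⟩
  rw [pow_two, End.mul_apply, LinearMap.sub_apply, this, End.one_apply, sub_self]

section dec
variable {ι : Type} [DecidableEq ι] {x : ι → End ℂ H} {S : Finset ι} {Q : Submodule ℂ H} {s : ℂ}

omit [FiniteDimensional ℂ H] [DecidableEq ι] in
lemma dec_mem (hs : s * s = 1) (h1 : ∀ a, x a * x a = 1) (h3 : ∀ a, Keeps (x a) Q) {a : ι} {v : H}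
    (hv : v ∈ Q) : s • v - x a v ∈ Q ⊓ End.eigenspace (x a) (-s) := by
  refine ⟨sub_mem (Q.smul_mem _ hv) (h3 a v hv), End.mem_eigenspace_iff.2 ?_⟩
  have e1 : x a (x a v) = v := by rw [← End.mul_apply, h1, End.one_apply]
  rw [map_sub, map_smul, e1, smul_sub, smul_smul, neg_mul, hs]
  simp only [neg_smul, one_smul]
  abel

omit [FiniteDimensional ℂ H] [DecidableEq ι] in
lemma dec_other (hs : s * s = 1) (h1 : ∀ a, x a * x a = 1) (h2 : ∀ a b, Commute (x a) (x b))
    (h3 : ∀ a, Keeps (x a) Q) {a b : ι}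
    (hz : Q ⊓ End.eigenspace (x a) (-s) ⊓ End.eigenspace (x b) (-s) = ⊥) {v : H}
    (hv : v ∈ Q ⊓ End.eigenspace (x a) (-s)) : x b v = s • v := by
  have k : ∀ a', Keeps (x a') (Q ⊓ End.eigenspace (x a) (-s)) := fun a' =>
    (h3 a').inf (keeps_eig (h2 a' a) _)
  have := dec_mem (Q := Q ⊓ End.eigenspace (x a) (-s)) hs h1 k (a := b) hv
  rw [hz, Submodule.mem_bot, sub_eq_zero] at this
  exact this.symm

omit [DecidableEq ι] in
lemma dec_span (hs : s * s = 1) (h1 : ∀ a, x a * x a = 1) (h2 : ∀ a b, Commute (x a) (x b))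
    (h3 : ∀ a, Keeps (x a) Q) (hd : finrank ℂ Q = S.card)
    (hl : ∀ a ∈ S, finrank ℂ (Q ⊓ End.eigenspace (x a) (-s) : Submodule ℂ H) = 1)
    (hz : ∀ a ∈ S, ∀ b ∈ S, a ≠ b →
      Q ⊓ End.eigenspace (x a) (-s) ⊓ End.eigenspace (x b) (-s) = ⊥) :
    Q ≤ ⨆ a : S, Q ⊓ End.eigenspace (x a) (-s) := by
  have hs0 : s ≠ 0 := by rintro rfl; simp at hs
  have ind : iSupIndep fun a : S => Q ⊓ End.eigenspace (x a) (-s) := by
    refine iSupIndep_def.2 fun a => ?_
    have le : (⨆ b : S, ⨆ (_ : b ≠ a), Q ⊓ End.eigenspace (x b) (-s)) ≤ End.eigenspace (x a) s :=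
      iSup₂_le fun b hb v hv => End.mem_eigenspace_iff.2
        (dec_other hs h1 h2 h3 (hz b b.2 a a.2 fun e => hb (Subtype.ext e)) hv)
    refine Submodule.disjoint_def.2 fun v hv hv' => ?_
    have e1 := End.mem_eigenspace_iff.1 hv.2
    have e2 := End.mem_eigenspace_iff.1 (le hv')
    have : (2 * s) • v = 0 := by
      rw [two_mul, add_smul]
      nth_rewrite 1 [← e2]
      rw [e1, neg_smul, neg_add_cancel]
    exact (smul_eq_zero.1 this).resolve_left (mul_ne_zero two_ne_zero hs0)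
  refine (Submodule.eq_of_le_of_finrank_eq (iSup_le fun a => inf_le_left) ?_).ge
  rw [finrank_iSup ind, hd, Finset.sum_congr rfl fun a _ => hl a.1 a.2]
  simp

lemma dec_pair (hs : s * s = 1) (h1 : ∀ a, x a * x a = 1) (h2 : ∀ a b, Commute (x a) (x b))
    (h3 : ∀ a, Keeps (x a) Q) (hd : finrank ℂ Q = S.card)
    (hl : ∀ a ∈ S, finrank ℂ (Q ⊓ End.eigenspace (x a) (-s) : Submodule ℂ H) = 1)
    (hz : ∀ a ∈ S, ∀ b ∈ S, a ≠ b →
      Q ⊓ End.eigenspace (x a) (-s) ⊓ End.eigenspace (x b) (-s) = ⊥) {a b : ι} (ha : a ∈ S)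
    (hb : b ∈ S) (hab : a ≠ b) {v : H} (hv : v ∈ Q)
    (e : ∀ f ∈ S, f ≠ a → f ≠ b → x f v = s • v) :
    v ∈ Q ⊓ End.eigenspace (x a) (-s) ⊔ Q ⊓ End.eigenspace (x b) (-s) := by
  have hs0 : s ≠ 0 := by rintro rfl; simp at hs
  have k : Q ≤ LinearMap.ker ((∑ f ∈ S, (s • (1 : End ℂ H) - x f)) - (2 * s) • (1 : End ℂ H)) := by
    refine (dec_span hs h1 h2 h3 hd hl hz).trans (iSup_le fun g u hu => ?_)
    rw [LinearMap.mem_ker, LinearMap.sub_apply, LinearMap.sum_apply, Finset.sum_eq_single g.1]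
    · have := End.mem_eigenspace_iff.1 hu.2
      simp [this, two_mul, add_smul]
    · intro f hf hfg
      simp [dec_other hs h1 h2 h3 (hz g g.2 f hf hfg.symm) hu]
    · exact fun h => absurd g.2 h
  have := k hv
  rw [LinearMap.mem_ker, LinearMap.sub_apply, LinearMap.sum_apply,
    Finset.sum_eq_add_of_mem a b ha hb hab (fun f hf h => by simp [e f hf h.1 h.2]),
    sub_eq_zero] at this
  have m : (2 * s) • v ∈ Q ⊓ End.eigenspace (x a) (-s) ⊔ Q ⊓ End.eigenspace (x b) (-s) := by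
    have e' : (2 * s) • v = (s • v - x a v) + (s • v - x b v) := this.symm
    rw [e']
    exact Submodule.add_mem_sup (dec_mem hs h1 h3 hv) (dec_mem hs h1 h3 hv)
  exact (Submodule.smul_mem_iff _ (mul_ne_zero two_ne_zero hs0)).1 m

end dec

section tr
variable {ι : Type} [DecidableEq ι] {D : ι → End ℂ H} {R : Finset ι} {f : End ℂ H}

/-- `f` permutes the sign characters on `R` without fixed points. -/
def Rot (D : ι → End ℂ H) (R : Finset ι) (f : End ℂ H) : Prop :=
  ∀ e ∈ R, ∃ a ∈ R, ∃ b ∈ R, (e = a ∨ e = b) ∧ f * D a = D a * D b * f ∧ f * D b = D a * f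

omit [FiniteDimensional ℂ H] in
lemma Rot.sign (h : Rot D R f) (h1 : ∀ a, D a * D a = 1) (I : Finset ι) {e : ι} (he : e ∈ R) :
    (∀ v ∈ JE D R I, D e (f v) = f v) ∨ ∀ v ∈ JE D R I, D e (f v) = -f v := by
  obtain ⟨a, ha, b, hb, hab, e1, e2⟩ := h e he
  have a1 : ∀ v, D a (f v) = f (D b v) := fun v => (LinearMap.congr_fun e2 v).symm
  have a2 : ∀ v, D a (D b (f v)) = f (D a v) := fun v => (LinearMap.congr_fun e1 v).symm
  have a3 : ∀ v, D a (D a v) = v := fun v => LinearMap.congr_fun (h1 a) v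
  have a4 : ∀ v, D b (f v) = f (D b (D a v)) := fun v => by rw [← a1, ← a2, a3]
  rcases hab with rfl | rfl
  · by_cases k : b ∈ I
    · exact Or.inr fun v hv => by rw [a1, mem_JE.1 hv b hb, if_pos k, map_neg]
    · exact Or.inl fun v hv => by rw [a1, mem_JE.1 hv b hb, if_neg k]
  · by_cases k : e ∈ I <;> by_cases l : a ∈ I
    · exact Or.inl fun v hv => by
        rw [a4, mem_JE.1 hv a ha, if_pos l, map_neg, mem_JE.1 hv e he, if_pos k, neg_neg]
    · exact Or.inr fun v hv => by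
        rw [a4, mem_JE.1 hv a ha, if_neg l, mem_JE.1 hv e he, if_pos k, map_neg]
    · exact Or.inr fun v hv => by
        rw [a4, mem_JE.1 hv a ha, if_pos l, map_neg, mem_JE.1 hv e he, if_neg k, map_neg]
    · exact Or.inl fun v hv => by
        rw [a4, mem_JE.1 hv a ha, if_neg l, mem_JE.1 hv e he, if_neg k]

omit [FiniteDimensional ℂ H] in
lemma Rot.keeps (h : Rot D R f) (h1 : ∀ a, D a * D a = 1) : Keeps f (JE D R ∅) := by
  intro v hv
  refine mem_JE.2 fun e he => ?_
  obtain ⟨a, ha, b, hb, hab, e1, e2⟩ := h e he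
  have a1 : D a (f v) = f v := by
    have := LinearMap.congr_fun e2 v
    simpa [mem_JE.1 hv b hb] using this.symm
  have a2 : D a (D b (f v)) = f v := by
    have := LinearMap.congr_fun e1 v
    simpa [mem_JE.1 hv a ha] using this.symm
  have a3 : ∀ v, D a (D a v) = v := fun v => LinearMap.congr_fun (h1 a) v
  rcases hab with rfl | rfl
  · simpa using a1
  · have : D e (f v) = D a (f v) := by
      nth_rewrite 2 [← a2]
      rw [a3]
    simpa [a1] using this

omit [FiniteDimensional ℂ H] in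
lemma Rot.zero (h : Rot D R f) {I : Finset ι} (hI : I ⊆ R) (hne : I ≠ ∅) {v : H}
    (hv : v ∈ JE D R I) (hv' : f v ∈ JE D R I) : f v = 0 := by
  obtain ⟨e, he⟩ := Finset.nonempty_iff_ne_empty.2 hne
  obtain ⟨a, ha, b, hb, hab, e1, e2⟩ := h e (hI he)
  have a1 : D a (f v) = f (D b v) := (LinearMap.congr_fun e2 v).symm
  have a2 : D a (D b (f v)) = f (D a v) := (LinearMap.congr_fun e1 v).symm
  have z : f v = -f v → f v = 0 := fun k => by
    have : (2 : ℂ) • f v = 0 := by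
      rw [two_smul]
      nth_rewrite 1 [k]
      exact neg_add_cancel _
    exact (smul_eq_zero.1 this).resolve_left two_ne_zero
  rw [mem_JE.1 hv' a ha, mem_JE.1 hv b hb] at a1
  rw [mem_JE.1 hv' b hb, mem_JE.1 hv a ha] at a2
  by_cases k : b ∈ I <;> by_cases l : a ∈ I
  · rw [if_pos k, if_pos l, map_neg, map_neg, mem_JE.1 hv' a ha, if_pos l, neg_neg] at a2
    exact z a2
  · rw [if_pos k, if_neg l, map_neg] at a1
    exact z a1
  · rw [if_neg k, if_pos l] at a1
    exact z a1.symm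
  · rcases hab with rfl | rfl
    · exact absurd he l
    · exact absurd he k

lemma Rot.trOn (h : Rot D R f) (h1 : ∀ a, D a * D a = 1) (h2 : ∀ a b, Commute (D a) (D b))
    {Q : Submodule ℂ H} (h3 : ∀ a ∈ R, Keeps (D a) Q) (hf : Keeps f Q) :
    trOn f Q = trOn f (Q ⊓ JE D R ∅) := by
  classical
  let φ : Finset ι → Finset ι := fun I => R.filter fun e => ¬ ∀ v ∈ JE D R I, D e (f v) = f v
  have hφ : ∀ I, ∀ v ∈ JE D R I, f v ∈ JE D R (φ I) := fun I v hv => mem_JE.2 fun e he => by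
    by_cases k : e ∈ φ I
    · rw [if_pos k]
      exact (h.sign h1 I he).resolve_left (Finset.mem_filter.1 k).2 v hv
    · rw [if_neg k]
      exact not_not.1 (fun l => k (Finset.mem_filter.2 ⟨he, l⟩)) v hv
  rw [JE_trOn (x := D) (S := R) (f := f) (fun a _ v _ => LinearMap.congr_fun (h1 a) v)
    (fun a _ b _ v _ => LinearMap.congr_fun (h2 a b) v) h3 φ (fun I _ => Finset.filter_subset _ _)
    fun I _ v hv => ⟨hf v hv.1, hφ I v hv.2⟩]
  refine Finset.sum_eq_single ∅ (fun I hI hne => ?_) fun hn => absurd ?_ hn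
  · obtain ⟨k1, k2⟩ := Finset.mem_filter.1 hI
    rw [trOn_scalar (c := 0) fun v hv => ?_, zero_mul]
    rw [zero_smul]
    exact h.zero (Finset.mem_powerset.1 k1) hne hv.2 (k2 ▸ hφ I v hv.2)
  · refine Finset.mem_filter.2 ⟨Finset.empty_mem_powerset _, Finset.filter_eq_empty_iff.2 ?_⟩
    intro e he k
    exact k fun v hv => by simpa using mem_JE.1 (h.keeps h1 v hv) e he

variable [Fintype ι]

lemma split4 (h1 : ∀ a, D a * D a = 1) (h2 : ∀ a b, Commute (D a) (D b)) {c d : ι} (hcd : c ≠ d)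
    {Q : Submodule ℂ H} (h3 : ∀ a ∈ ({c, d} : Finset ι), Keeps (D a) Q) :
    finrank ℂ (JE D {c, d}ᶜ ∅ ⊓ Q : Submodule ℂ H) =
      finrank ℂ (JE D univ ∅ ⊓ Q : Submodule ℂ H) + finrank ℂ (JE D univ {d} ⊓ Q : Submodule ℂ H) +
      (finrank ℂ (JE D univ {c} ⊓ Q : Submodule ℂ H) +
        finrank ℂ (JE D univ {c, d} ⊓ Q : Submodule ℂ H)) := by
  have k : ∀ I ⊆ ({c, d} : Finset ι), JE D {c, d}ᶜ ∅ ⊓ Q ⊓ JE D {c, d} I = JE D univ I ⊓ Q := by
    intro I hI
    rw [inf_right_comm, JE_union disjoint_compl_left (Finset.empty_subset _) hI, Finset.empty_union,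
      Finset.union_comm, Finset.union_compl]
  rw [← JE_sum (x := D) (S := {c, d}) (fun a _ v _ => LinearMap.congr_fun (h1 a) v)
    (fun a _ b _ v _ => LinearMap.congr_fun (h2 a b) v)
    (fun a ha => (keeps_JE _ fun b _ => h2 a b).inf (h3 a ha)),
    Finset.sum_congr rfl fun I hI => by rw [k I (Finset.mem_powerset.1 hI)],
    Finset.sum_powerset_insert (by simpa using hcd)]
  have p : ({d} : Finset ι).powerset = {∅, {d}} := by
    ext I
    simp
  rw [p, Finset.sum_pair (Finset.singleton_ne_empty d).symm,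
    Finset.sum_pair (Finset.singleton_ne_empty d).symm]
  rfl

end tr

end Pool.Agent.MP_3ce0a0_al.H52.G3
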